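import Pool.Agent.H50.UR.Orb

/-!
The fibres of the multiplication by a prime: points, centroids, multiplications.
-/

set_option autoImplicit false

open MeasureTheory Filter Topology Set
open scoped ENNReal

namespace Pool.Agent.H50.PR

open Pool.Agent.W764.FB Pool.Agent.W764.SH Pool.Agent.H847R3.XpXq Pool.Agent.V11299.FG
open Pool.Agent.H50.UR

variable {p : ℕ} [hp : Fact p.Prime]

/-- the point `k / p` -/
noncomputable def z (k : ZMod p) : UnitAddCircle := ZMod.toAddCircle k

lemma z_add (k l : ZMod p) : (z (k + l) : UnitAddCircle) = z k + z l := map_add ZMod.toAddCircle k l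

lemma z_zero : (z (0 : ZMod p) : UnitAddCircle) = 0 := map_zero ZMod.toAddCircle

lemma z_inj {k l : ZMod p} (h : (z k : UnitAddCircle) = z l) : k = l := ZMod.toAddCircle_injective p h

lemma z_smul (a : ℕ) (k : ZMod p) : a • (z k : UnitAddCircle) = z ((a : ZMod p) * k) := by
  unfold z
  rw [← map_nsmul, nsmul_eq_mul]

lemma p_z (k : ZMod p) : p • (z k : UnitAddCircle) = 0 := by
  rw [z_smul, CharP.cast_eq_zero, zero_mul, z_zero]

lemma z_hh (k : ℕ) (hk : k < p) : (z (k : ZMod p) : UnitAddCircle) = hh p 1 k := by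
  unfold z hh
  rw [ZMod.toAddCircle_apply, ZMod.val_natCast_of_lt hk, pow_one]

/-- sums over the fibre -/
lemma fs_eq (g : UnitAddCircle → ℝ≥0∞) (x : UnitAddCircle) :
    fs p 1 g x = ∑ k : ZMod p, g (x + z k) := by
  have hp0 : 0 < p := hp.out.pos
  have : NeZero p := ⟨hp0.ne'⟩
  unfold fs
  rw [pow_one]
  symm
  refine Finset.sum_nbij (fun k : ZMod p => k.val) (fun k _ => Finset.mem_range.2 (ZMod.val_lt k))
    (fun a _ b _ h => ZMod.val_injective p h) (fun k hk => ?_) (fun k _ => ?_)
  · have hk' : k < p := by simpa using hk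
    exact ⟨(k : ZMod p), by simp, ZMod.val_natCast_of_lt hk'⟩
  · congr 2
    have h1 : ((k.val : ℕ) : ZMod p) = k := ZMod.natCast_zmod_val k
    rw [← z_hh _ (ZMod.val_lt k), h1]

lemma Fib_smul (g : UnitAddCircle → ℝ≥0∞) (x : UnitAddCircle) :
    Fib p g (p • x) = ∑ k : ZMod p, g (x + z k) := by
  unfold Fib
  rw [fs_one_sec hp.out.pos, fs_eq]

/-- the number of points of `A` in the fibre of `x` -/
noncomputable def N (A : Set UnitAddCircle) (x : UnitAddCircle) : ℕ := by
  classical
  exact (Finset.univ.filter fun k : ZMod p => x + z k ∈ A).card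

lemma Fib_N (A : Set UnitAddCircle) (x : UnitAddCircle) :
    Fib p (A.indicator 1) (p • x) = (N (p := p) A x : ℝ≥0∞) := by
  classical
  rw [Fib_smul]
  unfold N
  rw [Finset.card_filter]
  push_cast
  refine Finset.sum_congr rfl fun k _ => ?_
  by_cases h : x + z k ∈ A
  · rw [indicator_of_mem h, if_pos h]; rfl
  · rw [indicator_of_notMem h, if_neg h]

lemma ae_N {μ : Measure UnitAddCircle} {A : Set UnitAddCircle} {j : ℕ}
    (h : ∀ᵐ y ∂μ, Fib p (A.indicator 1) y = j) :
    ∀ᵐ y ∂μ, ∀ x : UnitAddCircle, p • x = y → N (p := p) A x = j := by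
  filter_upwards [h] with y hy x hx
  rw [← hx, Fib_N] at hy
  exact_mod_cast hy

/-! ### the centroid -/

/-- the sum of the points of `A` in the fibre, relative to `x` -/
noncomputable def S (A : Set UnitAddCircle) (x : UnitAddCircle) : ZMod p := by
  classical
  exact ∑ k : ZMod p, if x + z k ∈ A then k else 0

lemma S_mul {A : Set UnitAddCircle} {a : ℕ} (ha : (a : ZMod p) ≠ 0)
    (hA : (fun x : UnitAddCircle => a • x) ⁻¹' A = A) (x : UnitAddCircle) :
    S (p := p) A (a • x) = a * S (p := p) A x := by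
  classical
  unfold S
  rw [Finset.mul_sum]
  symm
  refine Finset.sum_bijective (fun k : ZMod p => (a : ZMod p) * k) (mulLeft_bijective₀ _ ha)
    (fun _ => by simp) fun k _ => ?_
  have h1 : a • x + z ((a : ZMod p) * k) ∈ A ↔ x + z k ∈ A := by
    rw [← z_smul, ← smul_add]
    show x + z k ∈ (fun x : UnitAddCircle => a • x) ⁻¹' A ↔ _
    rw [hA]
  by_cases h2 : x + z k ∈ A
  · rw [if_pos h2, if_pos (h1.2 h2)]
  · rw [if_neg h2, if_neg (fun h => h2 (h1.1 h)), mul_zero]

lemma S_shift (A : Set UnitAddCircle) (x : UnitAddCircle) (s : ZMod p) :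
    S (p := p) A (x + z s) = S (p := p) A x - N (p := p) A x * s := by
  classical
  unfold S N
  have h1 : ∑ k : ZMod p, (if x + z s + z k ∈ A then k else 0) =
      ∑ k : ZMod p, (if x + z k ∈ A then k - s else 0) := by
    refine Finset.sum_bijective (fun k : ZMod p => s + k) (Equiv.addLeft s).bijective
      (fun _ => by simp) fun k _ => ?_
    rw [z_add, ← add_assoc, add_sub_cancel_left]
  rw [h1, ← sub_eq_zero]
  have h2 : ∀ k : ZMod p, (if x + z k ∈ A then k - s else 0) =
      (if x + z k ∈ A then k else 0) - (if x + z k ∈ A then s else 0) := by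
    intro k
    split_ifs <;> simp
  simp only [h2]
  rw [Finset.sum_sub_distrib, ← Finset.sum_filter (fun k : ZMod p => x + z k ∈ A) (fun _ => s),
    Finset.sum_const, nsmul_eq_mul, sub_self]

/-- the centroids -/
def cen (p : ℕ) [Fact p.Prime] (A : Set UnitAddCircle) : Set UnitAddCircle := {x | S (p := p) A x = 0}

lemma measurable_zS {A : Set UnitAddCircle} (hA : MeasurableSet A) :
    Measurable fun x : UnitAddCircle => (z (S (p := p) A x) : UnitAddCircle) := by
  classical
  have e : (fun x : UnitAddCircle => (z (S (p := p) A x) : UnitAddCircle)) =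
      fun x => ∑ k : ZMod p, if x + z k ∈ A then (z k : UnitAddCircle) else 0 := by
    funext x
    unfold S z
    rw [map_sum]
    refine Finset.sum_congr rfl fun k _ => ?_
    split_ifs
    · rfl
    · rw [map_zero]
  rw [e]
  refine Finset.measurable_fun_sum _ fun k _ => ?_
  exact Measurable.ite (measurable_add_const (z k) hA) measurable_const measurable_const

lemma cen_meas {A : Set UnitAddCircle} (hA : MeasurableSet A) : MeasurableSet (cen p A) := by
  have : cen p A = (fun x : UnitAddCircle => (z (S (p := p) A x) : UnitAddCircle)) ⁻¹' {0} := by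
    ext x
    unfold cen
    rw [mem_preimage, mem_singleton_iff, ← z_zero (p := p)]
    exact ⟨fun h => by rw [show S (p := p) A x = 0 from h], fun h => z_inj h⟩
  rw [this]
  exact measurable_zS hA (measurableSet_singleton 0)

lemma cen_inv {A : Set UnitAddCircle} {a : ℕ} (ha : (a : ZMod p) ≠ 0)
    (hA : (fun x : UnitAddCircle => a • x) ⁻¹' A = A) :
    (fun x : UnitAddCircle => a • x) ⁻¹' (cen p A) = cen p A := by
  ext x
  show S (p := p) A (a • x) = 0 ↔ S (p := p) A x = 0
  rw [S_mul ha hA, mul_eq_zero, or_iff_right ha]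

/-- there is one centroid in each fibre -/
lemma cen_N {A : Set UnitAddCircle} {x : UnitAddCircle} (h : (N (p := p) A x : ZMod p) ≠ 0) :
    N (p := p) (cen p A) x = 1 := by
  classical
  show (Finset.univ.filter fun k : ZMod p => x + z k ∈ cen p A).card = 1
  rw [Finset.card_eq_one]
  refine ⟨S (p := p) A x / N (p := p) A x, ?_⟩
  ext k
  rw [Finset.mem_filter, Finset.mem_singleton]
  show (_ ∧ S (p := p) A (x + z k) = 0) ↔ _
  rw [S_shift, sub_eq_zero, eq_div_iff h, mul_comm k]
  exact ⟨fun hk => hk.2.symm, fun hk => ⟨Finset.mem_univ _, hk.symm⟩⟩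

/-! ### the multiplications of the fibre around a section -/

/-- the distance to the section -/
noncomputable def d (A : Set UnitAddCircle) (x : UnitAddCircle) : ZMod p := -S (p := p) A x

/-- the multiplication by `s` around the section -/
noncomputable def Mul (A : Set UnitAddCircle) (s : ZMod p) (x : UnitAddCircle) : UnitAddCircle :=
  x + z ((s - 1) * d (p := p) A x)

lemma measurable_Mul {A : Set UnitAddCircle} (hA : MeasurableSet A) (s : ZMod p) :
    Measurable (Mul A s) := by
  have hp0 : 0 < p := hp.out.pos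
  have : NeZero p := ⟨hp0.ne'⟩
  unfold Mul d
  have e : (fun x : UnitAddCircle => x + (z ((s - 1) * -S (p := p) A x) : UnitAddCircle)) =
      fun x => x + ((-(s - 1)).val) • (z (S (p := p) A x) : UnitAddCircle) := by
    funext x
    rw [z_smul, ZMod.natCast_zmod_val]
    congr 2
    ring
  rw [e]
  exact measurable_id.add ((meas_nsmul _).comp (measurable_zS hA))

lemma d_mul {A : Set UnitAddCircle} {a : ℕ} (ha : (a : ZMod p) ≠ 0)
    (hA : (fun x : UnitAddCircle => a • x) ⁻¹' A = A) (x : UnitAddCircle) :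
    d (p := p) A (a • x) = a * d (p := p) A x := by
  unfold d
  rw [S_mul ha hA, mul_neg]

lemma Mul_mul {A : Set UnitAddCircle} {a : ℕ} (ha : (a : ZMod p) ≠ 0)
    (hA : (fun x : UnitAddCircle => a • x) ⁻¹' A = A) (s : ZMod p) (x : UnitAddCircle) :
    Mul A s (a • x) = a • Mul A s x := by
  unfold Mul
  rw [d_mul ha hA, smul_add, z_smul]
  congr 2
  ring

lemma p_Mul (A : Set UnitAddCircle) (s : ZMod p) (x : UnitAddCircle) : p • Mul A s x = p • x := by
  unfold Mul
  rw [smul_add, p_z, add_zero]

lemma Mul_one (A : Set UnitAddCircle) (x : UnitAddCircle) : Mul (p := p) A 1 x = x := by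
  unfold Mul
  rw [sub_self, zero_mul, z_zero, add_zero]

lemma d_shift {A : Set UnitAddCircle} {x : UnitAddCircle} (h : N (p := p) A x = 1) (s : ZMod p) :
    d (p := p) A (x + z s) = d (p := p) A x + s := by
  unfold d
  rw [S_shift, h]
  push_cast
  ring

lemma N_shift (A : Set UnitAddCircle) (x : UnitAddCircle) (s : ZMod p) :
    N (p := p) A (x + z s) = N (p := p) A x := by
  have h : ((N (p := p) A (x + z s) : ℕ) : ℝ≥0∞) = (N (p := p) A x : ℕ) := by
    rw [← Fib_N, ← Fib_N, smul_add, p_z, add_zero]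
  exact_mod_cast h

lemma mem_iff {A : Set UnitAddCircle} {x : UnitAddCircle} (h : N (p := p) A x = 1) :
    x ∈ A ↔ d (p := p) A x = 0 := by
  classical
  have h1 : (Finset.univ.filter fun k : ZMod p => x + z k ∈ A).card = 1 := h
  obtain ⟨k₀, hk₀⟩ := Finset.card_eq_one.1 h1
  have h2 : ∀ k : ZMod p, x + z k ∈ A ↔ k = k₀ := by
    intro k
    have : k ∈ (Finset.univ.filter fun k : ZMod p => x + z k ∈ A) ↔ k = k₀ := by
      rw [hk₀, Finset.mem_singleton]
    simpa using this
  have h3 : S (p := p) A x = k₀ := by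
    unfold S
    rw [Finset.sum_eq_single k₀]
    · rw [if_pos ((h2 k₀).2 rfl)]
    · intro b _ hb
      rw [if_neg (fun hm => hb ((h2 b).1 hm))]
    · intro hn; exact absurd (Finset.mem_univ _) hn
  have h4 := h2 0
  rw [z_zero, add_zero] at h4
  unfold d
  rw [h4, h3, neg_eq_zero, eq_comm]

lemma Mul_Mul {A : Set UnitAddCircle} {x : UnitAddCircle} (h : N (p := p) A x = 1) (s s' : ZMod p) :
    Mul A s' (Mul A s x) = Mul A (s' * s) x := by
  have h1 : d (p := p) A (Mul A s x) = s * d (p := p) A x := by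
    unfold Mul
    rw [d_shift h]
    ring
  show Mul A s x + z ((s' - 1) * d (p := p) A (Mul A s x)) = _
  rw [h1]
  unfold Mul
  rw [add_assoc, ← z_add]
  congr 2
  ring

lemma d_Mul {A : Set UnitAddCircle} {x : UnitAddCircle} (h : N (p := p) A x = 1) (s : ZMod p) :
    d (p := p) A (Mul A s x) = s * d (p := p) A x := by
  unfold Mul
  rw [d_shift h]
  ring

/-- the multiplications sweep the fibre outside the section -/
lemma sum_Mul {A : Set UnitAddCircle} {x : UnitAddCircle} (h : N (p := p) A x = 1)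
    (hx : x ∉ A) (g : UnitAddCircle → ℝ≥0∞) :
    ∑ s : (ZMod p)ˣ, g (Mul A (s : ZMod p) x) = ∑ k : ZMod p, (Aᶜ).indicator g (x + z k) := by
  classical
  have hd : d (p := p) A x ≠ 0 := fun h0 => hx ((mem_iff h).2 h0)
  have hmem : ∀ k : ZMod p, x + z k ∈ A ↔ d (p := p) A x + k = 0 := by
    intro k
    rw [mem_iff (by rw [N_shift]; exact h), d_shift h]
  have h1 : ∑ k : ZMod p, (Aᶜ).indicator g (x + z k) =
      ∑ k ∈ Finset.univ.filter (fun k : ZMod p => d (p := p) A x + k ≠ 0), g (x + z k) := by
    rw [Finset.sum_filter]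
    refine Finset.sum_congr rfl fun k _ => ?_
    by_cases hk : x + z k ∈ A
    · rw [indicator_of_notMem (by simpa using hk), if_neg (by rw [not_not]; exact (hmem k).1 hk)]
    · rw [indicator_of_mem (by simpa using hk), if_pos (fun h0 => hk ((hmem k).2 h0))]
  rw [h1]
  refine Finset.sum_bij (fun (s : (ZMod p)ˣ) _ => ((s : ZMod p) - 1) * d (p := p) A x) ?_ ?_ ?_ ?_
  · intro s _
    rw [Finset.mem_filter]
    refine ⟨Finset.mem_univ _, ?_⟩
    have : d (p := p) A x + ((s : ZMod p) - 1) * d (p := p) A x = s * d (p := p) A x := by ring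
    rw [this]
    exact mul_ne_zero s.ne_zero hd
  · intro s _ s' _ hss
    have h2 : (s : ZMod p) - 1 = s' - 1 := mul_right_cancel₀ hd hss
    exact Units.ext (sub_left_injective h2)
  · intro k hk
    rw [Finset.mem_filter] at hk
    have hne : (d (p := p) A x + k) / d (p := p) A x ≠ 0 := div_ne_zero hk.2 hd
    refine ⟨Units.mk0 _ hne, Finset.mem_univ _, ?_⟩
    rw [Units.val_mk0]
    field_simp
    ring
  · intro s _
    rfl

end Pool.Agent.H50.PR
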