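import Pool.Agent.H50.PR.Main

/-!
The number of the ergodic lifts.
-/

set_option autoImplicit false

open MeasureTheory Filter Topology Set
open scoped ENNReal

namespace Pool.Agent.H50.PR

open Pool.Agent.W764.FB Pool.Agent.W764.SH Pool.Agent.H847R3.XpXq Pool.Agent.V11299.FG
open Pool.Agent.H50.UR

variable {p : ℕ} [hp : Fact p.Prime] {μ : Measure UnitAddCircle} [IsProbabilityMeasure μ]

lemma Fib_add (g g' : UnitAddCircle → ℝ≥0∞) (x : UnitAddCircle) :
    Fib p (fun y => g y + g' y) x = Fib p g x + Fib p g' x := by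
  unfold Fib fs
  rw [Finset.sum_add_distrib]

/-- all invariant sets have no or all points: one lift -/
lemma case_full (hp2 : Nat.Coprime p 2) (hp3 : Nat.Coprime p 3) (h2 : mu 2 μ = μ) (h3 : mu 3 μ = μ)
    (he : JointlyErgodic 2 3 μ)
    (hall : ∀ A : Set UnitAddCircle, MeasurableSet A → (fun x : UnitAddCircle => 2 • x) ⁻¹' A = A →
      (fun x : UnitAddCircle => 3 • x) ⁻¹' A = A → ∀ j : ℕ, (∀ᵐ x ∂μ, Fib p (A.indicator 1) x = j) →
      j = 0 ∨ p ≤ j) :
    ∃ ν, Root p μ ν ∧ (∀ ν', Root p μ ν' → ν' = ν) ∧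
      ∀ B : Set UnitAddCircle, MeasurableSet B → (mu1 p ν) B = p * ν B := by
  have hk : 1 ≤ p := hp.out.pos
  have hp0 : (p : ℝ≥0∞) ≠ 0 := by exact_mod_cast hp.out.ne_zero
  have hpt : (p : ℝ≥0∞) ≠ ⊤ := ENNReal.natCast_ne_top _
  have huniv : ∀ᵐ x ∂μ, Fib p ((univ : Set UnitAddCircle).indicator 1) x = p := by
    refine Eventually.of_forall fun x => ?_
    unfold Fib fs
    simp
  obtain ⟨ν, hν1, hν2, hν3, hν4⟩ := lift_of_set hk MeasurableSet.univ hk huniv
  have hB : ∀ B : Set UnitAddCircle, MeasurableSet B → (mu1 p ν) B = p * ν B := by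
    intro B hB
    rw [mu1_apply hν2 hB, hν4 B hB, univ_inter, ← mul_assoc, ENNReal.mul_inv_cancel hp0 hpt, one_mul]
  have hroot : Root p μ ν := by
    refine ⟨hν1, hν3 _ hp2 rfl h2, hν3 _ hp3 rfl h3, ?_, hν2⟩
    intro B hB hBp hBq
    obtain ⟨j, hj⟩ := exists_count hk hp2 hp3 he hB hBp hBq
    have hval : ν B = (p : ℝ≥0∞)⁻¹ * j := by
      rw [hν4 B hB, univ_inter, lintegral_congr_ae hj, lintegral_const, measure_univ, mul_one]
    rcases hall B hB hBp hBq j hj with h0 | h0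
    · left
      rw [hval, h0, Nat.cast_zero, mul_zero]
    · right
      have h5 : j ≤ p := by
        obtain ⟨x, hx⟩ := hj.exists
        obtain ⟨j', hj', hx'⟩ := Fib_ind p B x
        rw [hx] at hx'
        have : j = j' := by exact_mod_cast hx'
        omega
      rw [hval, le_antisymm h5 h0, ENNReal.inv_mul_cancel hp0 hpt]
  refine ⟨ν, hroot, fun ν' hν' => ?_, hB⟩
  have hprob' := hν'.prob
  rcases hν'.eq_or_sing hroot with h | h
  · exact h
  · exfalso
    have hle : ν' ≤ mu1 p ν := lift_le hk (by rw [hν'.map, hν2])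
    have hac : mu1 p ν ≪ ν := by
      refine Measure.AbsolutelyContinuous.mk fun s hs h0 => ?_
      rw [hB s hs, h0, mul_zero]
    have h6 : ν' ⟂ₘ ν' := h.mono_ac Measure.AbsolutelyContinuous.rfl
      ((Measure.absolutelyContinuous_of_le hle).trans hac)
    have h7 := (Measure.MutuallySingular.self_iff _).1 h6
    have h8 : ν' univ = 1 := measure_univ
    rw [h7] at h8
    simp at h8

/-- there is a section -/
lemma case_section (hp5 : 5 ≤ p) (hp2 : Nat.Coprime p 2) (hp3 : Nat.Coprime p 3) (h2 : mu 2 μ = μ)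
    (h3 : mu 3 μ = μ) (he : JointlyErgodic 2 3 μ) {A : Set UnitAddCircle} (hA : MeasurableSet A)
    (hA2 : (fun x : UnitAddCircle => 2 • x) ⁻¹' A = A) (hA3 : (fun x : UnitAddCircle => 3 • x) ⁻¹' A = A)
    (hA1 : ∀ᵐ x ∂μ, Fib p (A.indicator 1) x = (1 : ℕ)) :
    ∃ (ν₀ : Measure UnitAddCircle) (R : Finset (Measure UnitAddCircle)) (h : ℕ), Root p μ ν₀ ∧
      1 ≤ h ∧ h ∣ Nat.card (H p) ∧ h * R.card = p - 1 ∧ ν₀ ∉ R ∧ (∀ ν, ν ∈ R ↔ Root p μ ν ∧ ν ≠ ν₀) ∧
      ∀ B : Set UnitAddCircle, MeasurableSet B → (mu1 p ν₀) B = ν₀ B + h * ∑ ν ∈ R, ν B := by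
  classical
  have hk : 1 ≤ p := hp.out.pos
  obtain ⟨ν₀, hν1, hν2, hν3, hν4⟩ := lift_of_set hk hA le_rfl hA1
  have hν4' : ∀ B : Set UnitAddCircle, MeasurableSet B →
      ν₀ B = ∫⁻ x, Fib p ((A ∩ B).indicator 1) x ∂μ := by
    intro B hB
    rw [hν4 B hB, Nat.cast_one, inv_one, one_mul]
  have hroot0 : Root p μ ν₀ := by
    refine ⟨hν1, hν3 _ hp2 hA2 h2, hν3 _ hp3 hA3 h3, ?_, hν2⟩
    intro B hB hBp hBq
    have hABm : MeasurableSet (A ∩ B) := hA.inter hB
    have hABp : (fun x : UnitAddCircle => 2 • x) ⁻¹' (A ∩ B) = A ∩ B := by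
      rw [preimage_inter, hA2, hBp]
    have hABq : (fun x : UnitAddCircle => 3 • x) ⁻¹' (A ∩ B) = A ∩ B := by
      rw [preimage_inter, hA3, hBq]
    obtain ⟨j, hj⟩ := exists_count hk hp2 hp3 he hABm hABp hABq
    have hval : ν₀ B = j := by
      rw [hν4' B hB, lintegral_congr_ae hj, lintegral_const, measure_univ, mul_one]
    have h5 : j ≤ 1 := by
      obtain ⟨x, hx1, hx2⟩ := (hj.and hA1).exists
      have h3 : Fib p ((A ∩ B).indicator 1) x ≤ Fib p (A.indicator 1) x := by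
        refine Fib_mono (fun y => ?_) x
        exact indicator_le_indicator_of_subset inter_subset_left (fun _ => zero_le) y
      rw [hx1, hx2] at h3
      exact_mod_cast h3
    interval_cases j
    · left; rw [hval]; simp
    · right; rw [hval]; simp
  -- a root off the section
  have hAc : ∀ᵐ x ∂μ, Fib p (Aᶜ.indicator 1) x = ((p - 1 : ℕ) : ℝ≥0∞) := by
    filter_upwards [hA1] with x hx
    have h5 : Fib p (fun y => A.indicator 1 y + Aᶜ.indicator 1 y) x = p := by
      have : (fun y : UnitAddCircle => A.indicator (1 : UnitAddCircle → ℝ≥0∞) y + Aᶜ.indicator 1 y) =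
          fun _ => 1 := by
        funext y
        by_cases hy : y ∈ A
        · rw [indicator_of_mem hy, indicator_of_notMem (by simpa using hy), add_zero]; rfl
        · rw [indicator_of_notMem hy, indicator_of_mem (show y ∈ Aᶜ from hy), zero_add]; rfl
      rw [this]
      unfold Fib fs
      simp
    rw [Fib_add, hx] at h5
    have h6 : ((1 : ℕ) : ℝ≥0∞) + ((p - 1 : ℕ) : ℝ≥0∞) = p := by
      rw [← Nat.cast_add]; congr 1; omega
    rw [← h6] at h5
    exact (ENNReal.add_right_inj (ENNReal.natCast_ne_top 1)).1 h5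
  have hAc2 : (fun x : UnitAddCircle => 2 • x) ⁻¹' Aᶜ = Aᶜ := by rw [preimage_compl, hA2]
  have hAc3 : (fun x : UnitAddCircle => 3 • x) ⁻¹' Aᶜ = Aᶜ := by rw [preimage_compl, hA3]
  obtain ⟨ν₁, hroot1, hν₁⟩ := exists_erg_in hp2 hp3 h2 h3 he hA.compl hAc2 hAc3 (by omega : 1 ≤ p - 1) hAc
  rw [compl_compl] at hν₁
  -- the images
  set ρ : (ZMod p)ˣ → Measure UnitAddCircle := fun s => ν₁.map (Mul A (s : ZMod p)) with hρ
  have hρroot : ∀ s, Root p μ (ρ s) := fun s => root_Mul hA hA2 hA3 hp5 hroot1 s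
  have hρmap : ∀ s s' : (ZMod p)ˣ, (ρ s).map (Mul A (s' : ZMod p)) = ρ (s' * s) := by
    intro s s'
    rw [hρ]
    show (ν₁.map (Mul A (s : ZMod p))).map (Mul A (s' : ZMod p)) = ν₁.map (Mul A ((s' * s : (ZMod p)ˣ) : ZMod p))
    rw [map_Mul hA hA1 hroot1.map, Units.val_mul]
  have hρ1 : ρ 1 = ν₁ := by
    rw [hρ]
    show ν₁.map (Mul A ((1 : (ZMod p)ˣ) : ZMod p)) = ν₁
    have : Mul A ((1 : (ZMod p)ˣ) : ZMod p) = id := by
      funext x
      rw [Units.val_one, Mul_one]; rfl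
    rw [this, Measure.map_id]
  let K : Subgroup (ZMod p)ˣ :=
    { carrier := {s | ρ s = ν₁}
      one_mem' := hρ1
      mul_mem' := by
        intro s s' hs hs'
        show ρ (s * s') = ν₁
        rw [← hρmap s' s, show ρ s' = ν₁ from hs']
        exact hs
      inv_mem' := by
        intro s hs
        show ρ s⁻¹ = ν₁
        have h5 : (ρ s).map (Mul A ((s⁻¹ : (ZMod p)ˣ) : ZMod p)) = ρ (s⁻¹ * s) := hρmap s s⁻¹
        rw [inv_mul_cancel, hρ1, show ρ s = ν₁ from hs] at h5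
        exact h5 }
  have hKmem : ∀ s, s ∈ K ↔ ρ s = ν₁ := fun s => Iff.rfl
  have hKle : K ≤ H p := fun s hs => stab_le hA hA2 hA3 hA1 hp5 hroot1 hν₁ hs
  set R : Finset (Measure UnitAddCircle) := Finset.univ.image ρ with hR
  have hfib : ∀ s₀, (Finset.univ.filter fun s => ρ s = ρ s₀).card = Nat.card K := by
    intro s₀
    have h5 : (Finset.univ.filter fun s => ρ s = ρ s₀) =
        (Finset.univ.filter fun s => s ∈ K).map (Equiv.mulLeft s₀).toEmbedding := by
      ext s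
      rw [Finset.mem_filter, Finset.mem_map_equiv, Finset.mem_filter]
      simp only [Finset.mem_univ, true_and]
      rw [hKmem]
      show ρ s = ρ s₀ ↔ ρ (s₀⁻¹ * s) = ν₁
      constructor
      · intro hs
        rw [← hρmap s s₀⁻¹, hs, hρmap, inv_mul_cancel, hρ1]
      · intro hs
        have h6 := hρmap (s₀⁻¹ * s) s₀
        rw [mul_inv_cancel_left, hs] at h6
        rw [← h6]
    rw [h5, Finset.card_map, Nat.card_eq_fintype_card, Fintype.card_subtype]
  have hcardU : (Finset.univ : Finset (ZMod p)ˣ).card = p - 1 := by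
    rw [Finset.card_univ, ZMod.card_units_eq_totient, Nat.totient_prime hp.out]
  have hcard : Nat.card K * R.card = p - 1 := by
    rw [← hcardU, Finset.card_eq_sum_card_image ρ Finset.univ, mul_comm]
    have : ∀ ν ∈ R, (Finset.univ.filter fun s => ρ s = ν).card = Nat.card K := by
      intro ν hν
      obtain ⟨s₀, -, rfl⟩ := Finset.mem_image.1 hν
      exact hfib s₀
    rw [Finset.sum_congr rfl this, Finset.sum_const, smul_eq_mul]
  have hsum : ∀ B : Set UnitAddCircle, ∑ s, (ρ s) B = Nat.card K * ∑ ν ∈ R, ν B := by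
    intro B
    have h5 := Finset.sum_comp (s := (Finset.univ : Finset (ZMod p)ˣ)) (fun ν : Measure UnitAddCircle => ν B) ρ
    rw [h5, Finset.mul_sum]
    refine Finset.sum_congr rfl fun ν hν => ?_
    obtain ⟨s₀, -, rfl⟩ := Finset.mem_image.1 hν
    rw [hfib, nsmul_eq_mul]
  have htot : ∀ B : Set UnitAddCircle, MeasurableSet B →
      (mu1 p ν₀) B = ν₀ B + ∑ s, (ρ s) B := by
    intro B hB
    rw [mu1_apply hν2 hB, hν4' B hB, hρ]
    show _ = _ + ∑ s : (ZMod p)ˣ, (ν₁.map (Mul A (s : ZMod p))) B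
    rw [sum_map hA hA1 hroot1.map hν₁ hB, ← lintegral_add_left]
    · refine lintegral_congr fun x => ?_
      rw [← Fib_add]
      congr 1
      funext y
      by_cases hyB : y ∈ B
      · by_cases hyA : y ∈ A
        · rw [indicator_of_mem hyB, indicator_of_mem (show y ∈ A ∩ B from ⟨hyA, hyB⟩),
            indicator_of_notMem (show y ∉ Aᶜ ∩ B from fun h => h.1 hyA), add_zero]
        · rw [indicator_of_mem hyB, indicator_of_notMem (show y ∉ A ∩ B from fun h => hyA h.1),
            indicator_of_mem (show y ∈ Aᶜ ∩ B from ⟨hyA, hyB⟩), zero_add]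
      · rw [indicator_of_notMem hyB, indicator_of_notMem (show y ∉ A ∩ B from fun h => hyB h.2),
          indicator_of_notMem (show y ∉ Aᶜ ∩ B from fun h => hyB h.2), add_zero]
    · exact measurable_Fib p (measurable_one.indicator (hA.inter hB))
  have hν0A : ν₀ A = 1 := by
    rw [hν4' A hA, inter_self, lintegral_congr_ae hA1, lintegral_const, measure_univ, mul_one, Nat.cast_one]
  have hρA : ∀ s, (ρ s) A = 0 := by
    intro s
    rw [hρ]
    show (ν₁.map (Mul A (s : ZMod p))) A = 0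
    rw [Measure.map_apply (measurable_Mul hA _) hA, measure_eq_zero_iff_ae_notMem]
    filter_upwards [ae_map_N hroot1.map hA1, measure_eq_zero_iff_ae_notMem.1 hν₁] with x hx hxA hmem
    have hx' : N (p := p) A (Mul A (s : ZMod p) x) = 1 := by
      unfold Mul
      rw [N_shift]
      exact hx
    have h5 : d (p := p) A (Mul A (s : ZMod p) x) = 0 := (mem_iff hx').1 hmem
    rw [d_Mul hx] at h5
    rcases mul_eq_zero.1 h5 with h6 | h6
    · exact s.ne_zero h6
    · exact hxA ((mem_iff hx).2 h6)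
  have hnot : ν₀ ∉ R := by
    intro hmem
    obtain ⟨s, -, hs⟩ := Finset.mem_image.1 hmem
    have := hρA s
    rw [hs, hν0A] at this
    exact one_ne_zero this
  refine ⟨ν₀, R, Nat.card K, hroot0, Nat.card_pos, Subgroup.card_dvd_of_le hKle, hcard, hnot, fun ν => ?_,
    fun B hB => by rw [htot B hB, hsum]⟩
  constructor
  · intro hν
    obtain ⟨s, -, rfl⟩ := Finset.mem_image.1 hν
    exact ⟨hρroot s, fun h5 => hnot (h5 ▸ hν)⟩
  · rintro ⟨hν, hne⟩
    by_contra hcon
    have hs0 : ν ⟂ₘ ν₀ := (hν.eq_or_sing hroot0).resolve_left hne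
    have hss : ∀ s, ν ⟂ₘ ρ s := by
      intro s
      refine (hν.eq_or_sing (hρroot s)).resolve_left fun h5 => hcon ?_
      rw [h5]
      exact Finset.mem_image_of_mem _ (Finset.mem_univ s)
    have hprob := hν.prob
    have h5 : ∀ t : Finset (ZMod p)ˣ, ν ⟂ₘ (∑ s ∈ t, ρ s) := by
      intro t
      induction t using Finset.induction_on with
      | empty => rw [Finset.sum_empty]; exact Measure.MutuallySingular.zero_right
      | insert a t ha ih =>
        rw [Finset.sum_insert ha]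
        exact (hss a).add_right ih
    have h6 : ν ⟂ₘ (ν₀ + ∑ s, ρ s) := hs0.add_right (h5 _)
    have h7 : mu1 p ν₀ = ν₀ + ∑ s, ρ s := by
      refine Measure.ext fun B hB => ?_
      rw [htot B hB, Measure.add_apply, Measure.finsetSum_apply]
    have hle : ν ≤ mu1 p ν₀ := lift_le hk (by rw [hν.map, hν2])
    rw [← h7] at h6
    have h8 : ν ⟂ₘ ν := h6.mono le_rfl hle
    have h9 := (Measure.MutuallySingular.self_iff _).1 h8
    have h10 : ν univ = 1 := measure_univ
    rw [h9] at h10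
    simp at h10

/-- **The ergodic lifts under the multiplication by a prime.** -/
theorem roots (hp5 : 5 ≤ p) (h2 : mu 2 μ = μ) (h3 : mu 3 μ = μ) (he : JointlyErgodic 2 3 μ) :
    (∃ ν, Root p μ ν ∧ (∀ ν', Root p μ ν' → ν' = ν) ∧
      ∀ B : Set UnitAddCircle, MeasurableSet B → (mu1 p ν) B = p * ν B) ∨
    ∃ (ν₀ : Measure UnitAddCircle) (R : Finset (Measure UnitAddCircle)) (h : ℕ), Root p μ ν₀ ∧
      1 ≤ h ∧ h ∣ Nat.card (H p) ∧ h * R.card = p - 1 ∧ ν₀ ∉ R ∧ (∀ ν, ν ∈ R ↔ Root p μ ν ∧ ν ≠ ν₀) ∧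
      ∀ B : Set UnitAddCircle, MeasurableSet B → (mu1 p ν₀) B = ν₀ B + h * ∑ ν ∈ R, ν B := by
  have hp2 : Nat.Coprime p 2 := (Nat.coprime_primes hp.out Nat.prime_two).2 (by omega)
  have hp3 : Nat.Coprime p 3 := (Nat.coprime_primes hp.out Nat.prime_three).2 (by omega)
  by_cases hall : ∀ A : Set UnitAddCircle, MeasurableSet A → (fun x : UnitAddCircle => 2 • x) ⁻¹' A = A →
      (fun x : UnitAddCircle => 3 • x) ⁻¹' A = A → ∀ j : ℕ, (∀ᵐ x ∂μ, Fib p (A.indicator 1) x = j) →
      j = 0 ∨ p ≤ j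
  · exact Or.inl (case_full hp2 hp3 h2 h3 he hall)
  · push Not at hall
    obtain ⟨A, hA, hA2, hA3, j, hj, hj0, hjp⟩ := hall
    obtain ⟨A₀, h4, h5, h6, h7⟩ := exists_section hp5 hA hA2 hA3 (Nat.one_le_iff_ne_zero.2 hj0) hjp hj
    exact Or.inr (case_section hp5 hp2 hp3 h2 h3 he h4 h5 h6 h7)

end Pool.Agent.H50.PR
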