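import Pool.Agent.H50.PR.Base

/-!
The ergodic lifts of an ergodic measure under the multiplication by a prime.
-/

set_option autoImplicit false

open MeasureTheory Filter Topology Set
open scoped ENNReal

namespace Pool.Agent.H50.PR

open Pool.Agent.W764.FB Pool.Agent.W764.SH Pool.Agent.H847R3.XpXq Pool.Agent.V11299.FG
open Pool.Agent.H50.UR

/-- an ergodic lift -/
structure Root (p : ℕ) (μ ν : Measure UnitAddCircle) : Prop where
  prob : IsProbabilityMeasure ν
  two : mu 2 ν = ν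
  three : mu 3 ν = ν
  erg : JointlyErgodic 2 3 ν
  map : mu p ν = μ

lemma Root.eq_or_sing {p : ℕ} {μ ν ν' : Measure UnitAddCircle} (h : Root p μ ν) (h' : Root p μ ν') :
    ν = ν' ∨ ν ⟂ₘ ν' := by
  have := h.prob
  have := h'.prob
  exact Q70.Af.je_eq_or_sing ⟨mp_iff.2 h.two, mp_iff.2 h.three⟩ ⟨mp_iff.2 h'.two, mp_iff.2 h'.three⟩
    h.erg h'.erg

variable {p : ℕ} [hp : Fact p.Prime] {μ : Measure UnitAddCircle} [IsProbabilityMeasure μ]

/-- an ergodic lift inside an invariant set -/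
lemma exists_erg_in (hp2 : Nat.Coprime p 2) (hp3 : Nat.Coprime p 3) (h2 : mu 2 μ = μ) (h3 : mu 3 μ = μ)
    (he : JointlyErgodic 2 3 μ) {C : Set UnitAddCircle} (hC : MeasurableSet C)
    (hC2 : (fun x : UnitAddCircle => 2 • x) ⁻¹' C = C) (hC3 : (fun x : UnitAddCircle => 3 • x) ⁻¹' C = C)
    {j : ℕ} (hj : 1 ≤ j) (hCj : ∀ᵐ x ∂μ, Fib p (C.indicator 1) x = j) :
    ∃ ν : Measure UnitAddCircle, Root p μ ν ∧ ν Cᶜ = 0 := by
  classical
  have hk : 1 ≤ p := hp.out.pos
  have hex : ∃ j : ℕ, 1 ≤ j ∧ ∃ A : Set UnitAddCircle, MeasurableSet A ∧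
      (fun x : UnitAddCircle => 2 • x) ⁻¹' A = A ∧
      (fun x : UnitAddCircle => 3 • x) ⁻¹' A = A ∧ A ⊆ C ∧ ∀ᵐ x ∂μ, Fib p (A.indicator 1) x = j :=
    ⟨j, hj, C, hC, hC2, hC3, subset_rfl, hCj⟩
  set j₀ := Nat.find hex with hj₀
  obtain ⟨hj1, A, hA, hAp, hAq, hAC, hAj⟩ := Nat.find_spec hex
  have hmin : ∀ j : ℕ, 1 ≤ j → ∀ B : Set UnitAddCircle, MeasurableSet B →
      (fun x : UnitAddCircle => 2 • x) ⁻¹' B = B →
      (fun x : UnitAddCircle => 3 • x) ⁻¹' B = B → B ⊆ C →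
      (∀ᵐ x ∂μ, Fib p (B.indicator 1) x = j) → j₀ ≤ j := by
    intro j hj B hB hBp hBq hBC hBj
    exact Nat.find_min' hex ⟨hj, B, hB, hBp, hBq, hBC, hBj⟩
  obtain ⟨ν, hν1, hν2, hν3, hν4⟩ := lift_of_set hk hA hj1 hAj
  have hj0 : (j₀ : ℝ≥0∞) ≠ 0 := by
    have : j₀ ≠ 0 := by omega
    exact_mod_cast this
  have hjt : (j₀ : ℝ≥0∞) ≠ ⊤ := ENNReal.natCast_ne_top _
  refine ⟨ν, ⟨hν1, hν3 _ hp2 hAp h2, hν3 _ hp3 hAq h3, ?_, hν2⟩, ?_⟩
  · intro B hB hBp hBq
    have hABm : MeasurableSet (A ∩ B) := hA.inter hB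
    have hABp : (fun x : UnitAddCircle => 2 • x) ⁻¹' (A ∩ B) = A ∩ B := by
      rw [preimage_inter, hAp, hBp]
    have hABq : (fun x : UnitAddCircle => 3 • x) ⁻¹' (A ∩ B) = A ∩ B := by
      rw [preimage_inter, hAq, hBq]
    obtain ⟨j, hj⟩ := exists_count hk hp2 hp3 he hABm hABp hABq
    have hval : ν B = (j₀ : ℝ≥0∞)⁻¹ * j := by
      rw [hν4 B hB, lintegral_congr_ae hj, lintegral_const, measure_univ, mul_one]
    rcases Nat.eq_zero_or_pos j with hj0' | hjpos
    · left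
      rw [hval, hj0', Nat.cast_zero, mul_zero]
    · right
      have h1 := hmin j hjpos _ hABm hABp hABq (inter_subset_left.trans hAC) hj
      have h2 : j ≤ j₀ := by
        obtain ⟨x, hx1, hx2⟩ := (hj.and hAj).exists
        have h3 : Fib p ((A ∩ B).indicator 1) x ≤ Fib p (A.indicator 1) x := by
          refine Fib_mono (fun y => ?_) x
          exact indicator_le_indicator_of_subset inter_subset_left (fun _ => zero_le) y
        rw [hx1, hx2] at h3
        exact_mod_cast h3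
      rw [hval, le_antisymm h2 h1, ENNReal.inv_mul_cancel hj0 hjt]
  · rw [hν4 _ hC.compl]
    have : A ∩ Cᶜ = ∅ := by
      ext x
      simp only [mem_inter_iff, mem_compl_iff, mem_empty_iff_false, iff_false, not_and, not_not]
      exact fun hx => hAC hx
    rw [this]
    have e : ∀ x, Fib p ((∅ : Set UnitAddCircle).indicator 1) x = 0 := by
      intro x
      unfold Fib fs
      simp
    rw [lintegral_congr e]
    simp

/-- the sum of the translates of a lift does not depend on the lift -/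
lemma mu1_apply {ν : Measure UnitAddCircle} (h : mu p ν = μ) {B : Set UnitAddCircle}
    (hB : MeasurableSet B) : (mu1 p ν) B = ∫⁻ x, Fib p (B.indicator 1) x ∂μ := by
  have hg : Measurable (B.indicator (1 : UnitAddCircle → ℝ≥0∞)) := measurable_one.indicator hB
  rw [← lintegral_indicator_one hB, lintegral_mu1 p ν hg, ← h]
  unfold UR.mu
  rw [lintegral_map (measurable_Fib p hg) (meas_nsmul p)]
  refine lintegral_congr fun x => ?_
  unfold Fib
  rw [fs_one_sec hp.out.pos]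

lemma ae_map_N {ν : Measure UnitAddCircle} (h : mu p ν = μ) {A : Set UnitAddCircle} {j : ℕ}
    (hA : ∀ᵐ y ∂μ, Fib p (A.indicator 1) y = j) : ∀ᵐ x ∂ν, N (p := p) A x = j := by
  have h1 := ae_N hA
  rw [← h] at h1
  unfold UR.mu at h1
  have h2 := ae_of_ae_map (meas_nsmul p).aemeasurable h1
  filter_upwards [h2] with x hx
  exact hx x rfl

lemma unit_cast {j : ℕ} (hj : 1 ≤ j) (hjp : j < p) : ((j : ℕ) : ZMod p) ≠ 0 := by
  intro h
  rw [ZMod.natCast_eq_zero_iff] at h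
  exact absurd (Nat.le_of_dvd hj h) (by omega)

/-- an invariant set with a proper number of points gives a section -/
lemma exists_section (hp5 : 5 ≤ p) {A : Set UnitAddCircle} (hA : MeasurableSet A)
    (hA2 : (fun x : UnitAddCircle => 2 • x) ⁻¹' A = A) (hA3 : (fun x : UnitAddCircle => 3 • x) ⁻¹' A = A)
    {j : ℕ} (hj : 1 ≤ j) (hjp : j < p) (hAj : ∀ᵐ x ∂μ, Fib p (A.indicator 1) x = j) :
    ∃ A₀ : Set UnitAddCircle, MeasurableSet A₀ ∧ (fun x : UnitAddCircle => 2 • x) ⁻¹' A₀ = A₀ ∧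
      (fun x : UnitAddCircle => 3 • x) ⁻¹' A₀ = A₀ ∧ ∀ᵐ x ∂μ, Fib p (A₀.indicator 1) x = (1 : ℕ) := by
  refine ⟨cen p A, cen_meas hA, cen_inv (by exact_mod_cast unit_cast (p := p) (j := 2) (by norm_num) (by omega)) hA2,
    cen_inv (by exact_mod_cast unit_cast (p := p) (j := 3) (by norm_num) (by omega)) hA3, ?_⟩
  filter_upwards [ae_N hAj] with y hy
  have h1 := hy (sec (p : ℤ) y) (smul_sec hp.out.pos y)
  have h2 : Fib p ((cen p A).indicator 1) (p • sec (p : ℤ) y) = (1 : ℕ) := by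
    rw [Fib_N, cen_N]
    rw [h1]
    exact unit_cast hj hjp
  rwa [smul_sec hp.out.pos] at h2

/-- the group generated by two and three -/
def H (p : ℕ) : Subgroup (ZMod p)ˣ := Subgroup.closure {u | (u : ZMod p) = 2 ∨ (u : ZMod p) = 3}

lemma d_meas {A : Set UnitAddCircle} (hA : MeasurableSet A) (k : ZMod p) :
    MeasurableSet {x : UnitAddCircle | d (p := p) A x = k} := by
  have : {x : UnitAddCircle | d (p := p) A x = k} =
      (fun x : UnitAddCircle => (z (S (p := p) A x) : UnitAddCircle)) ⁻¹' {z (-k)} := by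
    ext x
    rw [mem_preimage, mem_singleton_iff]
    unfold d
    constructor
    · intro h
      have h' : -S (p := p) A x = k := h
      rw [← h', neg_neg]
    · intro h
      show -S (p := p) A x = k
      rw [z_inj h, neg_neg]
  rw [this]
  exact measurable_zS hA (measurableSet_singleton _)

section

variable {A : Set UnitAddCircle} (hA : MeasurableSet A)
  (hA2 : (fun x : UnitAddCircle => 2 • x) ⁻¹' A = A) (hA3 : (fun x : UnitAddCircle => 3 • x) ⁻¹' A = A)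
  (hA1 : ∀ᵐ x ∂μ, Fib p (A.indicator 1) x = (1 : ℕ))

include hA hA1 in
lemma map_Mul {ν : Measure UnitAddCircle} (h : mu p ν = μ) (s s' : ZMod p) :
    (ν.map (Mul A s)).map (Mul A s') = ν.map (Mul A (s' * s)) := by
  rw [Measure.map_map (measurable_Mul hA s') (measurable_Mul hA s)]
  refine Measure.map_congr ?_
  filter_upwards [ae_map_N h hA1] with x hx
  exact Mul_Mul hx s s'

include hA hA2 hA3 in
lemma root_Mul (hp5 : 5 ≤ p) {ν : Measure UnitAddCircle} (h : Root p μ ν) (s : ZMod p) :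
    Root p μ (ν.map (Mul A s)) := by
  have := h.prob
  have hm := measurable_Mul hA s
  have e2 : ((2 : ℕ) : ZMod p) ≠ 0 := unit_cast (by norm_num) (by omega)
  have e3 : ((3 : ℕ) : ZMod p) ≠ 0 := unit_cast (by norm_num) (by omega)
  have key : ∀ a : ℕ, ((a : ℕ) : ZMod p) ≠ 0 → (fun x : UnitAddCircle => a • x) ⁻¹' A = A → mu a ν = ν →
      mu a (ν.map (Mul A s)) = ν.map (Mul A s) := by
    intro a ha hAa hν
    unfold UR.mu at hν ⊢
    rw [Measure.map_map (meas_nsmul a) hm]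
    have e : ((fun x : UnitAddCircle => a • x) ∘ Mul A s) = Mul A s ∘ fun x : UnitAddCircle => a • x := by
      funext x
      exact (Mul_mul ha hAa s x).symm
    rw [e, ← Measure.map_map hm (meas_nsmul a), hν]
  refine ⟨Measure.isProbabilityMeasure_map hm.aemeasurable, key 2 e2 hA2 h.two, key 3 e3 hA3 h.three, ?_, ?_⟩
  · intro E hE hE2 hE3
    rw [Measure.map_apply hm hE]
    refine h.erg _ (hm hE) ?_ ?_
    · ext x
      show Mul A s (2 • x) ∈ E ↔ Mul A s x ∈ E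
      rw [Mul_mul e2 hA2]
      show Mul A s x ∈ (fun x : UnitAddCircle => 2 • x) ⁻¹' E ↔ _
      rw [hE2]
    · ext x
      show Mul A s (3 • x) ∈ E ↔ Mul A s x ∈ E
      rw [Mul_mul e3 hA3]
      show Mul A s x ∈ (fun x : UnitAddCircle => 3 • x) ⁻¹' E ↔ _
      rw [hE3]
  · have hν := h.map
    unfold UR.mu at hν ⊢
    rw [Measure.map_map (meas_nsmul p) hm]
    have e : ((fun x : UnitAddCircle => p • x) ∘ Mul A s) = fun x : UnitAddCircle => p • x := by
      funext x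
      exact p_Mul A s x
    rw [e, hν]

include hA hA1 in
/-- the images of a lift off the section sweep the complement of the section -/
lemma sum_map {ν : Measure UnitAddCircle} (h : mu p ν = μ) (hν : ν A = 0) {B : Set UnitAddCircle}
    (hB : MeasurableSet B) :
    ∑ s : (ZMod p)ˣ, (ν.map (Mul A (s : ZMod p))) B = ∫⁻ x, Fib p ((Aᶜ ∩ B).indicator 1) x ∂μ := by
  have hg : Measurable (B.indicator (1 : UnitAddCircle → ℝ≥0∞)) := measurable_one.indicator hB
  have hg' : Measurable ((Aᶜ ∩ B).indicator (1 : UnitAddCircle → ℝ≥0∞)) :=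
    measurable_one.indicator (hA.compl.inter hB)
  have e1 : ∀ s : (ZMod p)ˣ, (ν.map (Mul A (s : ZMod p))) B =
      ∫⁻ x, B.indicator 1 (Mul A (s : ZMod p) x) ∂ν := by
    intro s
    rw [← lintegral_indicator_one hB, lintegral_map hg (measurable_Mul hA _)]
  simp only [e1]
  rw [← lintegral_finsetSum Finset.univ (f := fun (s : (ZMod p)ˣ) x => B.indicator 1 (Mul A (s : ZMod p) x))
    fun s _ => hg.comp (measurable_Mul hA _)]
  have e2 : ∫⁻ x, Fib p ((Aᶜ ∩ B).indicator 1) x ∂μ = ∫⁻ x, Fib p ((Aᶜ ∩ B).indicator 1) (p • x) ∂ν := by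
    rw [← h]
    unfold UR.mu
    rw [lintegral_map (measurable_Fib p hg') (meas_nsmul p)]
  rw [e2]
  have hν' : ∀ᵐ x ∂ν, x ∉ A := measure_eq_zero_iff_ae_notMem.1 hν
  refine lintegral_congr_ae ?_
  filter_upwards [ae_map_N h hA1, hν'] with x hx hxA
  rw [sum_Mul hx hxA, Fib_smul]
  refine Finset.sum_congr rfl fun k _ => ?_
  rw [Set.indicator_indicator]

include hA hA2 hA3 hA1 in
/-- the stabiliser is contained in the group generated by two and three -/
lemma stab_le (hp5 : 5 ≤ p) {ν : Measure UnitAddCircle} (h : Root p μ ν) (hν : ν A = 0) {s : (ZMod p)ˣ}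
    (hs : ν.map (Mul A (s : ZMod p)) = ν) : s ∈ H p := by
  classical
  have hprob := h.prob
  have e2 : ((2 : ℕ) : ZMod p) ≠ 0 := unit_cast (by norm_num) (by omega)
  have e3 : ((3 : ℕ) : ZMod p) ≠ 0 := unit_cast (by norm_num) (by omega)
  have hm := measurable_Mul hA (s : ZMod p)
  -- the sets of the cosets
  set B : (ZMod p)ˣ → Set UnitAddCircle := fun c =>
    ⋃ w ∈ {w : (ZMod p)ˣ | w ∈ H p}, {x | d (p := p) A x = ((w * c : (ZMod p)ˣ) : ZMod p)} with hB
  have hmemB : ∀ c x, x ∈ B c ↔ ∃ w ∈ H p, d (p := p) A x = ((w * c : (ZMod p)ˣ) : ZMod p) := by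
    intro c x
    simp [hB]
  have hBm : ∀ c, MeasurableSet (B c) := fun c =>
    MeasurableSet.biUnion (Set.to_countable _) fun w _ => d_meas hA _
  have hgen : ∀ a : ℕ, ((a : ℕ) : ZMod p) ≠ 0 → (a = 2 ∨ a = 3) →
      (fun x : UnitAddCircle => a • x) ⁻¹' A = A → ∀ c,
      (fun x : UnitAddCircle => a • x) ⁻¹' (B c) = B c := by
    intro a ha ha' hAa c
    have hu : Units.mk0 ((a : ℕ) : ZMod p) ha ∈ H p := by
      refine Subgroup.subset_closure ?_
      show ((Units.mk0 ((a : ℕ) : ZMod p) ha : (ZMod p)ˣ) : ZMod p) = 2 ∨ _ = 3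
      rw [Units.val_mk0]
      rcases ha' with rfl | rfl
      · left; norm_num
      · right; norm_num
    ext x
    rw [mem_preimage, hmemB, hmemB, d_mul ha hAa]
    constructor
    · rintro ⟨w, hw, hwx⟩
      refine ⟨(Units.mk0 ((a : ℕ) : ZMod p) ha)⁻¹ * w, (H p).mul_mem ((H p).inv_mem hu) hw, ?_⟩
      rw [mul_assoc, Units.val_mul, ← hwx, ← mul_assoc]
      have : (((Units.mk0 ((a : ℕ) : ZMod p) ha)⁻¹ : (ZMod p)ˣ) : ZMod p) * (a : ZMod p) = 1 :=
        Units.inv_mul (Units.mk0 ((a : ℕ) : ZMod p) ha)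
      rw [this, one_mul]
    · rintro ⟨w, hw, hwx⟩
      refine ⟨Units.mk0 ((a : ℕ) : ZMod p) ha * w, (H p).mul_mem hu hw, ?_⟩
      rw [mul_assoc, Units.val_mul, ← hwx, Units.val_mk0]
  have hN := ae_map_N h.map hA1
  have hν' : ∀ᵐ x ∂ν, x ∉ A := measure_eq_zero_iff_ae_notMem.1 hν
  have hcov : ∀ᵐ x ∂ν, ∃ c, x ∈ B c := by
    filter_upwards [hN, hν'] with x hx hxA
    have hd : d (p := p) A x ≠ 0 := fun h0 => hxA ((mem_iff hx).2 h0)
    refine ⟨Units.mk0 _ hd, (hmemB _ x).2 ⟨1, (H p).one_mem, ?_⟩⟩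
    rw [one_mul, Units.val_mk0]
  obtain ⟨c, hc⟩ : ∃ c, ν (B c) ≠ 0 := by
    by_contra hcon
    push Not at hcon
    have h4 : ν (⋃ c, B c) = 0 := (measure_iUnion_null_iff).2 hcon
    have h5 : ∀ᵐ x ∂ν, x ∉ ⋃ c, B c := measure_eq_zero_iff_ae_notMem.1 h4
    obtain ⟨x, ⟨c, hx1⟩, hx2⟩ := (hcov.and h5).exists
    exact hx2 (mem_iUnion.2 ⟨c, hx1⟩)
  have hc1 : ν (B c) = 1 := (h.erg _ (hBm c) (hgen 2 e2 (Or.inl rfl) hA2 c) (hgen 3 e3 (Or.inr rfl) hA3 c)).resolve_left hc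
  have hc2 : ν ((Mul A (s : ZMod p)) ⁻¹' (B c)) = 1 := by
    rw [← Measure.map_apply hm (hBm c), hs, hc1]
  have a1 : ∀ᵐ x ∂ν, x ∈ B c := by
    rw [← prob_compl_eq_zero_iff (hBm c)] at hc1
    exact hc1
  have a2 : ∀ᵐ x ∂ν, Mul A (s : ZMod p) x ∈ B c := by
    rw [← prob_compl_eq_zero_iff (hm (hBm c))] at hc2
    exact hc2
  obtain ⟨x, hx1, hx2, hx3⟩ := (hN.and (a1.and a2)).exists
  obtain ⟨w, hw, hwx⟩ := (hmemB c x).1 hx2
  obtain ⟨w', hw', hwx'⟩ := (hmemB c _).1 hx3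
  rw [d_Mul hx1, hwx, ← Units.val_mul] at hwx'
  have h6 : s * (w * c) = w' * c := Units.ext hwx'
  have h7 : s = w' * w⁻¹ := by
    rw [← mul_assoc] at h6
    have := mul_right_cancel h6
    rw [← this, mul_inv_cancel_right]
  rw [h7]
  exact (H p).mul_mem hw' ((H p).inv_mem hw)

end

end Pool.Agent.H50.PR
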